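import Pool.Agent.K7.H14.SR.Gap

set_option autoImplicit false

namespace Pool.Agent.K7.H14.SR

open Finset MulAction
open scoped Classical

variable (G : Type) {Ω : Type} [Group G] [MulAction G Ω] [Fintype G]

/-- pointwise stabiliser as a finset -/
noncomputable def PF (S : Finset Ω) : Finset G := univ.filter (fun g => ∀ a ∈ S, g • a = a)

variable {G}

theorem mem_PF {S : Finset Ω} {g : G} : g ∈ PF G S ↔ ∀ a ∈ S, g • a = a := by simp [PF]

theorem PF_one (S : Finset Ω) : (1 : G) ∈ PF G S := mem_PF.2 (fun a _ => one_smul G a)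

theorem PF_mul {S : Finset Ω} {g h : G} (hg : g ∈ PF G S) (hh : h ∈ PF G S) : g * h ∈ PF G S := by
  rw [mem_PF] at *
  intro a ha
  rw [mul_smul, hh a ha, hg a ha]

theorem PF_inv {S : Finset Ω} {g : G} (hg : g ∈ PF G S) : g⁻¹ ∈ PF G S := by
  rw [mem_PF] at *
  intro a ha
  rw [inv_smul_eq_iff, hg a ha]

theorem PF_anti {S T : Finset Ω} (h : S ⊆ T) : PF G T ⊆ PF G S := by
  intro g hg
  rw [mem_PF] at *
  exact fun a ha => hg a (h ha)

variable [Fintype Ω]

variable (G)

/-- orbit of the pointwise stabiliser -/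
noncomputable def OO (S : Finset Ω) (b : Ω) : Finset Ω :=
  univ.filter (fun y => ∃ g ∈ PF G S, g • b = y)

variable {G}

theorem mem_OO {S : Finset Ω} {b y : Ω} : y ∈ OO G S b ↔ ∃ g ∈ PF G S, g • b = y := by simp [OO]

theorem OO_self (S : Finset Ω) (b : Ω) : b ∈ OO G S b := mem_OO.2 ⟨1, PF_one S, one_smul G b⟩

theorem OO_anti {S T : Finset Ω} (h : S ⊆ T) (b : Ω) : OO G T b ⊆ OO G S b := by
  intro y hy
  rw [mem_OO] at *
  obtain ⟨g, hg, hgy⟩ := hy
  exact ⟨g, PF_anti h hg, hgy⟩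

theorem OO_sub_cl {S : Finset Ω} {a : Ω} (ha : a ∈ S) (b : Ω) : OO G S b ⊆ cl G a b := by
  intro y hy
  rw [mem_OO] at hy
  obtain ⟨g, hg, hgy⟩ := hy
  exact mem_cl.2 ⟨g, mem_PF.1 hg a ha, hgy⟩

theorem OO_closed {S : Finset Ω} {b y : Ω} {g : G} (hg : g ∈ PF G S) (hy : y ∈ OO G S b) :
    g • y ∈ OO G S b := by
  rw [mem_OO] at *
  obtain ⟨g', hg', hgy⟩ := hy
  exact ⟨g * g', PF_mul hg hg', by rw [mul_smul, hgy]⟩

theorem PF_smul {S : Finset Ω} {g x : G} :
    x ∈ PF G (S.image (fun a => g • a)) ↔ g⁻¹ * x * g ∈ PF G S := by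
  rw [mem_PF, mem_PF]
  constructor
  · intro h a ha
    have := h (g • a) (mem_image_of_mem _ ha)
    rw [mul_smul, mul_smul, this, inv_smul_smul]
  · intro h b hb
    rw [mem_image] at hb
    obtain ⟨a, ha, rfl⟩ := hb
    have := h a ha
    rw [mul_smul, mul_smul, inv_smul_eq_iff] at this
    exact this

theorem OO_smul (S : Finset Ω) (g : G) (b : Ω) :
    OO G (S.image (fun a => g • a)) b = (OO G S (g⁻¹ • b)).image (fun a => g • a) := by
  ext y
  rw [mem_OO, mem_image]
  constructor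
  · rintro ⟨x, hx, rfl⟩
    rw [PF_smul] at hx
    refine ⟨g⁻¹ • x • b, ?_, by simp⟩
    rw [mem_OO]
    refine ⟨_, hx, ?_⟩
    rw [mul_smul, mul_smul, smul_inv_smul]
  · rintro ⟨z, hz, rfl⟩
    rw [mem_OO] at hz
    obtain ⟨x, hx, rfl⟩ := hz
    refine ⟨g * x * g⁻¹, ?_, ?_⟩
    · rw [PF_smul]
      have : g⁻¹ * (g * x * g⁻¹) * g = x := by group
      rw [this]
      exact hx
    · rw [mul_smul, mul_smul]

theorem OO_smul_card (S : Finset Ω) (g : G) (b : Ω) :
    (OO G (S.image (fun a => g • a)) b).card = (OO G S (g⁻¹ • b)).card := by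
  rw [OO_smul, card_image_of_injective _ (MulAction.injective g)]

/-- size of a point stabiliser -/
theorem card_fib_le [IsPretransitive G Ω] (a b y : Ω) :
    (univ.filter (fun g : G => g • b = y)).card ≤ (PF G {a}).card := by
  by_cases h : ∃ g0 : G, g0 • b = y
  · obtain ⟨g0, hg0⟩ := h
    obtain ⟨u, hu⟩ := MulAction.exists_smul_eq G a b
    apply card_le_card_of_injOn (fun g => u⁻¹ * g0⁻¹ * g * u)
    · intro g hg
      simp only [coe_filter, mem_univ, true_and, Set.mem_ofPred_eq] at hg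
      rw [mem_coe, mem_PF]
      intro c hc
      rw [mem_singleton] at hc
      subst hc
      rw [mul_smul, mul_smul, mul_smul, hu, hg, ← hg0, inv_smul_smul, ← hu, inv_smul_smul]
    · intro g _ g' _ h
      simpa using h
  · have : (univ.filter (fun g : G => g • b = y)) = ∅ := by
      rw [filter_eq_empty_iff]
      intro g _ hg
      exact h ⟨g, hg⟩
    rw [this]
    simp

theorem PF_card_step {C : ℕ} (S : Finset Ω) (b : Ω) (hC : (OO G S b).card ≤ C) :
    (PF G S).card ≤ C * (PF G (insert b S)).card := by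
  have h1 : (PF G S).card ≤ (PF G (insert b S)).card * ((PF G S).image (fun g => g • b)).card := by
    apply card_le_mul_card_image
    intro y hy
    rw [mem_image] at hy
    obtain ⟨g0, hg0, rfl⟩ := hy
    apply card_le_card_of_injOn (fun g => g0⁻¹ * g)
    · intro g hg
      rw [mem_coe, mem_filter] at hg
      rw [mem_coe, mem_PF]
      intro c hc
      rw [mem_insert] at hc
      rcases hc with rfl | hc
      · rw [mul_smul, hg.2, inv_smul_smul]
      · exact mem_PF.1 (PF_mul (PF_inv hg0) hg.1) c hc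
    · intro g _ g' _ h
      simpa using h
  have h2 : ((PF G S).image (fun g => g • b)).card ≤ C := by
    refine le_trans (card_le_card ?_) hC
    intro y hy
    rw [mem_image] at hy
    obtain ⟨g0, hg0, rfl⟩ := hy
    exact mem_OO.2 ⟨g0, hg0, rfl⟩
  calc (PF G S).card ≤ _ := h1
    _ ≤ (PF G (insert b S)).card * C := Nat.mul_le_mul_left _ h2
    _ = _ := by ring

theorem PF_card_le {C : ℕ} (hC : ∀ a b : Ω, (cl G a b).card ≤ C) (a : Ω) (S : Finset Ω) :
    (PF G {a}).card ≤ C ^ S.card * (PF G (insert a S)).card := by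
  induction S using Finset.induction_on with
  | empty => simp
  | insert b S hb ih =>
    rw [card_insert_of_notMem hb, pow_succ]
    have h1 := PF_card_step (G := G) (C := C) (insert a S) b
      (le_trans (card_le_card (OO_sub_cl (mem_insert_self a S) b)) (hC a b))
    rw [Finset.insert_comm] at h1
    calc (PF G {a}).card ≤ C ^ S.card * (PF G (insert a S)).card := ih
      _ ≤ C ^ S.card * (C * (PF G (insert a (insert b S))).card) := Nat.mul_le_mul_left _ h1
      _ = _ := by ring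

theorem exists_stable' (f : ℕ → ℕ) (N : ℕ) (h0 : f 0 ≤ N) (hanti : ∀ j, f (j + 1) ≤ f j) :
    ∃ j, j ≤ N ∧ f (j + 1) = f j := by
  by_contra hcon
  push Not at hcon
  have key : ∀ t, t ≤ N + 1 → f t + t ≤ N := by
    intro t
    induction t with
    | zero => intro _; simpa using h0
    | succ t ih =>
      intro ht
      have h1 := ih (by omega)
      have h2 := hcon t (by omega)
      have h3 := hanti t
      omega
  have := key (N + 1) le_rfl
  omega

/-- the scale function -/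
def phi (C k : ℕ) : ℕ := k * 2 ^ (C ^ (k + 1) + 1)

/-- iterated scales -/
def jj (C : ℕ) : ℕ → ℕ
  | 0 => 1
  | (i + 1) => phi C (jj C i)

theorem jj_le_succ (C i : ℕ) : jj C i ≤ jj C (i + 1) := by
  show jj C i ≤ jj C i * 2 ^ _
  exact Nat.le_mul_of_pos_right _ (by positivity)

theorem jj_mono (C : ℕ) : Monotone (jj C) := monotone_nat_of_le_succ (jj_le_succ C)

theorem jj_pos (C i : ℕ) : 1 ≤ jj C i := jj_mono C (Nat.zero_le i)

/-- minimal bound for the orbits of pointwise stabilisers of at most `j` points -/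
noncomputable def cmin (G : Type) (Ω : Type) [Group G] [MulAction G Ω] [Fintype G] [Fintype Ω]
    (j : ℕ) : ℕ :=
  sInf {μ | ∃ S : Finset Ω, S.Nonempty ∧ S.card ≤ j ∧ ∀ b, (OO G S b).card ≤ μ}

theorem cmin_le {j μ : ℕ} {S : Finset Ω} (h : S.Nonempty) (hj : S.card ≤ j)
    (hb : ∀ b, (OO G S b).card ≤ μ) : cmin G Ω j ≤ μ :=
  Nat.sInf_le ⟨S, h, hj, hb⟩

theorem cmin_mem [Nonempty Ω] {j : ℕ} (hj : 1 ≤ j) :
    ∃ S : Finset Ω, S.Nonempty ∧ S.card ≤ j ∧ ∀ b, (OO G S b).card ≤ cmin G Ω j := by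
  have : (cmin G Ω j) ∈ {μ | ∃ S : Finset Ω, S.Nonempty ∧ S.card ≤ j ∧
      ∀ b, (OO G S b).card ≤ μ} := by
    apply Nat.sInf_mem
    obtain ⟨a⟩ := ‹Nonempty Ω›
    refine ⟨Fintype.card Ω, {a}, singleton_nonempty a, by simpa using hj, ?_⟩
    intro b
    exact card_le_univ _
  exact this

theorem cmin_anti [Nonempty Ω] {i j : ℕ} (hi : 1 ≤ i) (hij : i ≤ j) :
    cmin G Ω j ≤ cmin G Ω i := by
  obtain ⟨S, h1, h2, h3⟩ := cmin_mem (G := G) (Ω := Ω) hi
  exact cmin_le h1 (h2.trans hij) h3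

/-- the almost invariant set -/
noncomputable def MM (G : Type) {Ω : Type} [Group G] [MulAction G Ω] [Fintype G] [Fintype Ω]
    (μ : ℕ) (S : Finset Ω) : Finset G :=
  univ.filter (fun g => ∀ b, (OO G S b).card = μ → g • b ∈ OO G S b)

theorem mem_MM {μ : ℕ} {S : Finset Ω} {g : G} :
    g ∈ MM G μ S ↔ ∀ b, (OO G S b).card = μ → g • b ∈ OO G S b := by simp [MM]

theorem MM_smul {μ : ℕ} {S : Finset Ω} {g x : G} :
    x ∈ MM G μ (S.image (fun a => g • a)) ↔ g⁻¹ * x * g ∈ MM G μ S := by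
  rw [mem_MM, mem_MM]
  constructor
  · intro h b hb
    have h1 := h (g • b) (by rw [OO_smul_card, inv_smul_smul]; exact hb)
    rw [OO_smul, inv_smul_smul, mem_image] at h1
    obtain ⟨z, hz, hz2⟩ := h1
    rw [mul_smul, mul_smul, ← hz2, inv_smul_smul]
    exact hz
  · intro h b hb
    rw [OO_smul_card] at hb
    have h1 := h _ hb
    rw [OO_smul, mem_image]
    refine ⟨_, h1, ?_⟩
    rw [mul_smul, mul_smul, smul_inv_smul, smul_inv_smul]

end Pool.Agent.K7.H14.SR
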