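import Pool.Agent.K7.H14.SR.BL

set_option autoImplicit false

namespace Pool.Agent.K7.H14.SR

open Finset MulAction
open scoped Classical

variable {G : Type} {Ω : Type} [Group G] [MulAction G Ω] [Fintype G] [Fintype Ω]

/-- Bergman-Lenstra for a primitive permutation group with bounded subdegrees. -/
theorem bl [Nonempty Ω] [IsPreprimitive G Ω] [FaithfulSMul G Ω] {C : ℕ} (hC0 : 1 ≤ C)
    (hC : ∀ a b : Ω, (cl G a b).card ≤ C) :
    (∀ a : Ω, (PF G {a}).card ≤ C ^ (jj C C)) ∨ Fintype.card Ω ≤ C ^ (jj C C + 1) := by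
  obtain ⟨i, hi, hci⟩ := exists_stable' (fun i => cmin G Ω (jj C i)) C
    (by
      obtain ⟨a⟩ := ‹Nonempty Ω›
      apply cmin_le (S := {a}) (singleton_nonempty a)
      · simp [jj]
      · intro b
        exact le_trans (card_le_card (OO_sub_cl (mem_singleton_self a) b)) (hC a b))
    (fun j => cmin_anti (jj_pos C j) (jj_le_succ C j))
  set k := jj C i with hk
  have hkpos : 1 ≤ k := jj_pos C i
  have hkC : k ≤ jj C C := jj_mono C hi
  set L := C ^ (k + 1) with hL
  have hK : jj C (i + 1) = k * 2 ^ (L + 1) := rfl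
  set K := k * 2 ^ (L + 1) with hKdef
  rw [hK] at hci
  set μ := cmin G Ω k with hμ
  obtain ⟨S0, hS0ne, hS0k, hS0μ⟩ := cmin_mem (G := G) (Ω := Ω) hkpos
  rw [← hμ] at hS0μ
  have hkK : k ≤ K := Nat.le_mul_of_pos_right _ (by positivity)
  have hex : ∀ S : Finset Ω, S.Nonempty → S.card ≤ K → ∃ b, μ ≤ (OO G S b).card := by
    intro S hS hSK
    by_contra hcon
    push Not at hcon
    obtain ⟨b0⟩ := ‹Nonempty Ω›
    have hb0 : 0 < (OO G S b0).card := card_pos.2 ⟨b0, OO_self S b0⟩
    have h1 := hcon b0
    have h2 : cmin G Ω K ≤ μ - 1 := cmin_le hS hSK (fun b => by have := hcon b; omega)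
    omega
  let ok : Finset Ω → Prop := fun S => (∃ g : G, S0.image (fun a => g • a) ⊆ S) ∧ S.card ≤ K
  have hok0 : ∀ S, S0 ⊆ S → S.card ≤ K → ok S := by
    intro S h1 h2
    refine ⟨⟨1, ?_⟩, h2⟩
    simpa using h1
  have hle : ∀ S, ok S → ∀ b, (OO G S b).card ≤ μ := by
    rintro S ⟨⟨g, hg⟩, _⟩ b
    refine le_trans (card_le_card (OO_anti hg b)) ?_
    rw [OO_smul_card]
    exact hS0μ _
  have hne : ∀ S, ok S → S.Nonempty := by
    rintro S ⟨⟨g, hg⟩, _⟩
    exact (hS0ne.image _).mono hg
  have hb : ∀ S, ok S → ∃ b, (OO G S b).card = μ := by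
    intro S hS
    obtain ⟨b, hb⟩ := hex S (hne S hS) hS.2
    exact ⟨b, le_antisymm (hle S hS b) hb⟩
  have heq : ∀ S S', S ⊆ S' → ok S → ∀ b, (OO G S' b).card = μ → OO G S' b = OO G S b := by
    intro S S' h1 h2 b h3
    apply eq_of_subset_of_card_le (OO_anti h1 b)
    rw [h3]
    exact hle S h2 b
  have hmono : ∀ S S', S ⊆ S' → ok S → MM G μ S ⊆ MM G μ S' := by
    intro S S' h1 h2 g hg
    rw [mem_MM] at *
    intro b hb
    have := heq S S' h1 h2 b hb
    rw [this]
    apply hg
    rw [← this]
    exact hb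
  have hlinv : ∀ S, S0 ⊆ S → ∀ p ∈ PF G S0, ∀ x ∈ MM G μ S, p * x ∈ MM G μ S := by
    intro S h1 p hp x hx
    rw [mem_MM] at *
    intro b hb
    have h2 := heq S0 S h1 (hok0 S0 (Subset.refl _) (hS0k.trans hkK)) b hb
    have h3 := hx b hb
    rw [h2] at h3 ⊢
    rw [mul_smul]
    exact OO_closed hp h3
  have hcard : ∀ S, ok S → ∀ a : Ω, (MM G μ S).card ≤ C * (PF G {a}).card := by
    intro S hS a
    obtain ⟨b, hbμ⟩ := hb S hS
    have h1 : (MM G μ S).card ≤ (PF G {a}).card * ((MM G μ S).image (fun g => g • b)).card := by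
      apply card_le_mul_card_image
      intro y _
      refine le_trans (card_le_card ?_) (card_fib_le a b y)
      intro g hg
      rw [mem_filter] at hg ⊢
      exact ⟨mem_univ _, hg.2⟩
    have h2 : ((MM G μ S).image (fun g => g • b)).card ≤ C := by
      obtain ⟨c, hc⟩ := hne S hS
      refine le_trans (card_le_card (t := OO G S b) ?_)
        (le_trans (card_le_card (OO_sub_cl hc b)) (hC c b))
      intro y hy
      rw [mem_image] at hy
      obtain ⟨g, hg, rfl⟩ := hy
      exact mem_MM.1 hg b hbμ
    calc (MM G μ S).card ≤ _ := h1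
      _ ≤ (PF G {a}).card * C := Nat.mul_le_mul_left _ h2
      _ = _ := by ring
  obtain ⟨a0, ha0⟩ := hS0ne
  have hS0ne : S0.Nonempty := ⟨a0, ha0⟩
  have hh : (PF G {a0}).card ≤ C ^ k * (PF G S0).card := by
    have := PF_card_le hC a0 S0
    rw [insert_eq_of_mem ha0] at this
    exact this.trans (Nat.mul_le_mul_right _ (Nat.pow_le_pow_right hC0 hS0k))
  have hp0 : 0 < (PF G S0).card := card_pos.2 ⟨1, PF_one S0⟩
  have hstable : ∃ S, S0 ⊆ S ∧ S.card * 2 ≤ K ∧
      ∀ g : G, MM G μ (S ∪ S.image (fun a => g • a)) = MM G μ S := by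
    by_contra hcon
    push Not at hcon
    have key : ∀ t, t ≤ L → ∃ S, S0 ⊆ S ∧ S.card ≤ k * 2 ^ t ∧
        (t + 1) * (PF G S0).card ≤ (MM G μ S).card := by
      intro t
      induction t with
      | zero =>
        intro _
        refine ⟨S0, Subset.refl _, by simpa using hS0k, ?_⟩
        rw [zero_add, one_mul]
        apply card_le_card
        intro g hg
        rw [mem_MM]
        intro b _
        exact mem_OO.2 ⟨g, hg, rfl⟩
      | succ t ih =>
        intro ht
        obtain ⟨S, h1, h2, h3⟩ := ih (by omega)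
        have hpow : k * 2 ^ t * 2 ≤ K := by
          rw [hKdef, mul_assoc, ← pow_succ]
          exact Nat.mul_le_mul_left _ (Nat.pow_le_pow_right (by norm_num) (by omega))
        obtain ⟨g, hg⟩ := hcon S h1 (by omega)
        have hcardS' : (S ∪ S.image (fun a => g • a)).card ≤ k * 2 ^ (t + 1) := by
          refine le_trans (card_union_le _ _) ?_
          have := card_image_le (s := S) (f := fun a => g • a)
          rw [pow_succ]
          nlinarith
        refine ⟨S ∪ S.image (fun a => g • a), h1.trans subset_union_left, hcardS', ?_⟩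
        have hsub : MM G μ S ⊆ MM G μ (S ∪ S.image (fun a => g • a)) :=
          hmono _ _ subset_union_left (hok0 S h1 (by omega))
        obtain ⟨x, hx1, hx2⟩ := exists_of_ssubset
          ((ssubset_iff_subset_ne).2 ⟨hsub, fun h => hg h.symm⟩)
        have hdisj : Disjoint (MM G μ S) ((PF G S0).image (fun p => p * x)) := by
          rw [disjoint_left]
          intro y hy hy'
          rw [mem_image] at hy'
          obtain ⟨p, hp, rfl⟩ := hy'
          apply hx2
          have := hlinv S h1 p⁻¹ (PF_inv hp) _ hy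
          simpa using this
        have hun : MM G μ S ∪ (PF G S0).image (fun p => p * x) ⊆
            MM G μ (S ∪ S.image (fun a => g • a)) := by
          apply union_subset hsub
          intro y hy
          rw [mem_image] at hy
          obtain ⟨p, hp, rfl⟩ := hy
          exact hlinv _ (h1.trans subset_union_left) p hp x hx1
        have h5 := card_le_card hun
        rw [card_union_of_disjoint hdisj, card_image_of_injective _ (mul_left_injective x)] at h5
        calc (t + 1 + 1) * (PF G S0).card = (t + 1) * (PF G S0).card + (PF G S0).card := by ring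
          _ ≤ (MM G μ S).card + (PF G S0).card := Nat.add_le_add_right h3 _
          _ ≤ _ := h5
    obtain ⟨S, h1, h2, h3⟩ := key L le_rfl
    have hSK : S.card ≤ K := by
      rw [hKdef, pow_succ]
      nlinarith
    have h4 := hcard S (hok0 S h1 hSK) a0
    have h5 : (L + 1) * (PF G S0).card ≤ L * (PF G S0).card := by
      calc (L + 1) * (PF G S0).card ≤ (MM G μ S).card := h3
        _ ≤ C * (PF G {a0}).card := h4
        _ ≤ C * (C ^ k * (PF G S0).card) := Nat.mul_le_mul_left _ hh
        _ = L * (PF G S0).card := by rw [hL, pow_succ]; ring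
    have := Nat.le_of_mul_le_mul_right h5 hp0
    omega
  obtain ⟨S, hS1, hS2, hS3⟩ := hstable
  have hSok : ok S := hok0 S hS1 (by omega)
  have hconj : ∀ g x : G, x ∈ MM G μ S ↔ g⁻¹ * x * g ∈ MM G μ S := by
    intro g x
    have h1 : MM G μ (S.image (fun a => g • a)) ⊆ MM G μ (S ∪ S.image (fun a => g • a)) := by
      apply hmono _ _ subset_union_right
      refine ⟨⟨g, image_subset_image hS1⟩, ?_⟩
      have := card_image_le (s := S) (f := fun a => g • a)
      omega
    rw [hS3 g] at h1
    have h2 : (MM G μ S).card ≤ (MM G μ (S.image (fun a => g • a))).card := by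
      apply card_le_card_of_injOn (fun y => g * y * g⁻¹)
      · intro y hy
        rw [mem_coe] at hy ⊢
        rw [MM_smul]
        have : g⁻¹ * (g * y * g⁻¹) * g = y := by group
        rw [this]
        exact hy
      · intro y _ y' _ h
        simpa using h
    have h3 := eq_of_subset_of_card_le h1 h2
    rw [← MM_smul, h3]
  have hone : (1 : G) ∈ MM G μ S := by
    rw [mem_MM]
    intro b _
    rw [one_smul]
    exact OO_self S b
  let Γ : Subgroup G :=
    { carrier := {g | ∀ x, x ∈ MM G μ S ↔ g * x ∈ MM G μ S}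
      one_mem' := by
        intro x
        rw [one_mul]
      mul_mem' := by
        intro g h hg hh x
        rw [hh x, hg (h * x), mul_assoc]
      inv_mem' := by
        intro g hg x
        have := hg (g⁻¹ * x)
        rw [mul_inv_cancel_left] at this
        exact this.symm }
  have hΓ : ∀ g, g ∈ Γ ↔ ∀ x, x ∈ MM G μ S ↔ g * x ∈ MM G μ S := fun g => Iff.rfl
  have hnormal : Γ.Normal := by
    constructor
    intro g hg n
    rw [hΓ] at *
    intro x
    rw [hconj n x, hg, hconj n (n * g * n⁻¹ * x)]
    have : n⁻¹ * (n * g * n⁻¹ * x) * n = g * (n⁻¹ * x * n) := by group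
    rw [this]
  have hΓM : ∀ g ∈ Γ, g ∈ MM G μ S := by
    intro g hg
    have := (hg 1).1 hone
    rwa [mul_one] at this
  have hPΓ : ∀ p ∈ PF G S0, p ∈ Γ := by
    intro p hp x
    constructor
    · intro hx
      exact hlinv S hS1 p hp x hx
    · intro hx
      have := hlinv S hS1 p⁻¹ (PF_inv hp) _ hx
      simpa using this
  by_cases hfix : fixedPoints Γ Ω = Set.univ
  · left
    intro a
    have h1 : (PF G S0).card ≤ 1 := by
      rw [card_le_one]
      have key : ∀ p ∈ PF G S0, p = 1 := by
        intro p hp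
        apply FaithfulSMul.eq_of_smul_eq_smul (α := Ω)
        intro x
        have hx : x ∈ fixedPoints Γ Ω := by rw [hfix]; trivial
        rw [mem_fixedPoints] at hx
        have := hx ⟨p, hPΓ p hp⟩
        rw [one_smul]
        exact this
      intro p hp q hq
      rw [key p hp, key q hq]
    have h2 := PF_card_le hC a S0
    have h3 : (PF G (insert a S0)).card ≤ 1 := (card_le_card (PF_anti (subset_insert a S0))).trans h1
    calc (PF G {a}).card ≤ C ^ S0.card * (PF G (insert a S0)).card := h2
      _ ≤ C ^ S0.card * 1 := Nat.mul_le_mul_left _ h3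
      _ ≤ C ^ (jj C C) := by
          rw [mul_one]
          exact Nat.pow_le_pow_right hC0 (hS0k.trans hkC)
  · right
    have htr : IsPretransitive Γ Ω := IsQuasiPreprimitive.isPretransitive_of_normal (G := G) hfix
    let GF : Finset G := univ.filter (fun g => g ∈ Γ)
    have himg : GF.image (fun g => g • a0) = univ := by
      rw [eq_univ_iff_forall]
      intro y
      obtain ⟨g, hg⟩ := MulAction.exists_smul_eq Γ a0 y
      rw [mem_image]
      refine ⟨(g : G), ?_, hg⟩
      rw [mem_filter]
      exact ⟨mem_univ _, g.2⟩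
    have h1 : (PF G S0).card * (GF.image (fun g => g • a0)).card ≤ GF.card := by
      apply mul_card_image_le_card
      intro y hy
      rw [mem_image] at hy
      obtain ⟨g, hg, rfl⟩ := hy
      apply card_le_card_of_injOn (fun p => g * p)
      · intro p hp
        rw [mem_coe] at hp
        rw [mem_filter] at hg
        rw [mem_coe, mem_filter, mem_filter]
        refine ⟨⟨mem_univ _, Γ.mul_mem hg.2 (hPΓ p hp)⟩, ?_⟩
        rw [mul_smul, mem_PF.1 hp a0 ha0]
      · intro p _ q _ h
        simpa using h
    rw [himg, card_univ] at h1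
    have h2 : GF.card ≤ (MM G μ S).card := by
      apply card_le_card
      intro g hg
      rw [mem_filter] at hg
      exact hΓM g hg.2
    have h3 := hcard S hSok a0
    have h4 : (PF G S0).card * Fintype.card Ω ≤ (PF G S0).card * C ^ (k + 1) := by
      calc (PF G S0).card * Fintype.card Ω ≤ GF.card := h1
        _ ≤ _ := h2
        _ ≤ C * (PF G {a0}).card := h3
        _ ≤ C * (C ^ k * (PF G S0).card) := Nat.mul_le_mul_left _ hh
        _ = _ := by rw [pow_succ]; ring
    have h5 := Nat.le_of_mul_le_mul_left h4 hp0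
    exact h5.trans (Nat.pow_le_pow_right hC0 (by omega))

end Pool.Agent.K7.H14.SR
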