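import Mathlib

set_option autoImplicit false

namespace Pool.Agent.K7.H14.SR

open Finset MulAction
open scoped Classical

variable (G : Type) {Ω : Type} [Group G] [MulAction G Ω]

/-- `x` and `y` lie in the same orbit of the stabiliser of `a`. -/
def E (a x y : Ω) : Prop := ∃ g : G, g • a = a ∧ g • x = y

variable {G}

theorem E.refl (a x : Ω) : E G a x x := ⟨1, by simp, by simp⟩

theorem E.symm {a x y : Ω} (h : E G a x y) : E G a y x := by
  obtain ⟨g, h1, h2⟩ := h
  refine ⟨g⁻¹, ?_, ?_⟩
  · rw [inv_smul_eq_iff, h1]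
  · rw [inv_smul_eq_iff, h2]

theorem E.trans {a x y z : Ω} (h : E G a x y) (h' : E G a y z) : E G a x z := by
  obtain ⟨g, h1, h2⟩ := h
  obtain ⟨g', h1', h2'⟩ := h'
  exact ⟨g' * g, by rw [mul_smul, h1, h1'], by rw [mul_smul, h2, h2']⟩

theorem E.smul {a x y : Ω} (k : G) (h : E G a x y) : E G (k • a) (k • x) (k • y) := by
  obtain ⟨g, h1, h2⟩ := h
  refine ⟨k * g * k⁻¹, ?_, ?_⟩
  · rw [mul_smul, mul_smul, inv_smul_smul, h1]
  · rw [mul_smul, mul_smul, inv_smul_smul, h2]

theorem E.smul_iff {a x y : Ω} (k : G) : E G (k • a) (k • x) (k • y) ↔ E G a x y := by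
  constructor
  · intro h
    have := E.smul k⁻¹ h
    simpa using this
  · exact E.smul k

theorem E.center {a x : Ω} (h : E G a a x) : x = a := by
  obtain ⟨g, h1, h2⟩ := h
  rw [← h2, h1]

variable [Fintype Ω]

variable (G)

/-- the orbit of `x` under the stabiliser of `a`. -/
noncomputable def cl (a x : Ω) : Finset Ω := univ.filter (fun y => E G a x y)

variable {G}

theorem mem_cl {a x y : Ω} : y ∈ cl G a x ↔ E G a x y := by simp [cl]

theorem self_mem_cl (a x : Ω) : x ∈ cl G a x := mem_cl.2 (E.refl a x)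

theorem cl_eq_iff {a x y : Ω} : cl G a x = cl G a y ↔ E G a x y := by
  constructor
  · intro h
    have : y ∈ cl G a x := by rw [h]; exact self_mem_cl a y
    exact mem_cl.1 this
  · intro h
    ext z
    rw [mem_cl, mem_cl]
    exact ⟨fun h' => h.symm.trans h', fun h' => h.trans h'⟩

theorem cl_smul (k : G) (a x : Ω) : cl G (k • a) (k • x) = (cl G a x).image (fun y => k • y) := by
  ext z
  rw [mem_cl, mem_image]
  constructor
  · intro h
    refine ⟨k⁻¹ • z, ?_, by simp⟩
    rw [mem_cl, ← E.smul_iff k]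
    simpa using h
  · rintro ⟨y, hy, rfl⟩
    rw [mem_cl] at hy
    exact hy.smul k

theorem card_cl_smul (k : G) (a x : Ω) : (cl G (k • a) (k • x)).card = (cl G a x).card := by
  rw [cl_smul, card_image_of_injective _ (MulAction.injective k)]

variable (G)

/-- every orbit of a point stabiliser meets at most `m` orbits of any other point stabiliser -/
def Bd (Ω : Type) [Fintype Ω] [MulAction G Ω] (m : ℕ) : Prop :=
  ∀ a b x : Ω, ((cl G a x).image (cl G b)).card ≤ m

/-- number of orbits of the stabiliser of `a`. -/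
noncomputable def rk (a : Ω) : ℕ := ((univ : Finset Ω).image (cl G a)).card

/-- common class of `x` for a tuple of points -/
noncomputable def cls {k : ℕ} (S : Fin k → Ω) (x : Ω) : Finset Ω :=
  univ.filter (fun y => ∀ i, E G (S i) x y)

variable {G}

theorem mem_cls {k : ℕ} {S : Fin k → Ω} {x y : Ω} : y ∈ cls G S x ↔ ∀ i, E G (S i) x y := by
  simp [cls]

theorem self_mem_cls {k : ℕ} (S : Fin k → Ω) (x : Ω) : x ∈ cls G S x :=
  mem_cls.2 (fun _ => E.refl _ _)

theorem cls_eq {k : ℕ} {S : Fin k → Ω} {x y : Ω} (h : y ∈ cls G S x) : cls G S x = cls G S y := by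
  rw [mem_cls] at h
  ext z
  rw [mem_cls, mem_cls]
  exact ⟨fun h' i => (h i).symm.trans (h' i), fun h' i => (h i).trans (h' i)⟩

theorem cls_subset_cl {k : ℕ} (S : Fin k → Ω) (i : Fin k) (x : Ω) :
    cls G S x ⊆ cl G (S i) x := by
  intro y hy
  rw [mem_cls] at hy
  exact mem_cl.2 (hy i)

theorem cls_smul {k : ℕ} (g : G) (S : Fin k → Ω) (x : Ω) :
    cls G (g • S) (g • x) = (cls G S x).image (fun y => g • y) := by
  ext z
  rw [mem_cls, mem_image]
  constructor
  · intro h
    refine ⟨g⁻¹ • z, ?_, by simp⟩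
    rw [mem_cls]
    intro i
    rw [← E.smul_iff g]
    simpa using h i
  · rintro ⟨y, hy, rfl⟩ i
    rw [mem_cls] at hy
    exact (hy i).smul g

theorem cls_append {k l : ℕ} (S : Fin k → Ω) (T : Fin l → Ω) (x : Ω) :
    cls G (Fin.append S T) x = cls G S x ∩ cls G T x := by
  ext z
  rw [mem_inter, mem_cls, mem_cls, mem_cls]
  constructor
  · intro h
    refine ⟨fun i => ?_, fun i => ?_⟩
    · have := h (Fin.castAdd l i)
      rwa [Fin.append_left] at this
    · have := h (Fin.natAdd k i)
      rwa [Fin.append_right] at this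
  · rintro ⟨h1, h2⟩ i
    refine Fin.addCases (fun j => ?_) (fun j => ?_) i
    · rw [Fin.append_left]; exact h1 j
    · rw [Fin.append_right]; exact h2 j

theorem im_smul (g : G) (b : Ω) (X : Finset Ω) :
    (X.image (fun y => g • y)).image (cl G (g • b)) =
      (X.image (cl G b)).image (fun C => C.image (fun y => g • y)) := by
  rw [image_image, image_image]
  apply image_congr
  intro y _
  simp only [Function.comp]
  exact cl_smul g b y

theorem im_smul_inj (g : G) (b : Ω) (X Y : Finset Ω) :
    (X.image (fun y => g • y)).image (cl G (g • b)) = (Y.image (fun y => g • y)).image (cl G (g • b))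
      ↔ X.image (cl G b) = Y.image (cl G b) := by
  rw [im_smul, im_smul]
  apply Function.Injective.eq_iff
  exact image_injective (image_injective (MulAction.injective g))

end Pool.Agent.K7.H14.SR
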