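import Pool.Agent.K7.H14.SR.Plateau

set_option autoImplicit false

namespace Pool.Agent.K7.H14.SR

open Finset MulAction
open scoped Classical Pointwise

variable {G : Type} {Ω : Type} [Group G] [MulAction G Ω]

/-- An invariant equivalence relation of a primitive group is trivial. -/
theorem prim_equiv [IsPreprimitive G Ω] (R : Ω → Ω → Prop)
    (hsymm : ∀ x y, R x y → R y x) (htrans : ∀ x y z, R x y → R y z → R x z)
    (hinv : ∀ (g : G) x y, R x y → R (g • x) (g • y)) :
    (∀ x y, R x y → x = y) ∨ (∀ x y, R x y) := by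
  by_cases h : ∀ x y, R x y → x = y
  · exact Or.inl h
  right
  push Not at h
  obtain ⟨a, b, hab, hne⟩ := h
  have haa : R a a := htrans _ _ _ hab (hsymm _ _ hab)
  have hsm : ∀ g : G, g • {y | R a y} = {y | R (g • a) y} := by
    intro g
    ext z
    rw [Set.mem_smul_set_iff_inv_smul_mem, Set.mem_ofPred_eq, Set.mem_ofPred_eq]
    constructor
    · intro h
      have := hinv g _ _ h
      simpa using this
    · intro h
      have := hinv g⁻¹ _ _ h
      simpa using this
  have hB : IsBlock G {y | R a y} := by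
    rw [isBlock_iff_smul_eq_smul_of_nonempty]
    intro g₁ g₂ h
    rw [hsm, hsm] at h ⊢
    obtain ⟨z, h1, h2⟩ := h
    rw [Set.mem_ofPred_eq] at h1 h2
    ext w
    rw [Set.mem_ofPred_eq, Set.mem_ofPred_eq]
    constructor
    · intro h
      exact htrans _ _ _ (htrans _ _ _ h2 (hsymm _ _ h1)) h
    · intro h
      exact htrans _ _ _ (htrans _ _ _ h1 (hsymm _ _ h2)) h
  rcases hB.subsingleton_or_eq_univ with h | h
  · exact absurd (h (show a ∈ {y | R a y} from haa) (show b ∈ {y | R a y} from hab)) hne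
  · have key : ∀ y, R a y := by
      intro y
      have : y ∈ {y | R a y} := by rw [h]; trivial
      exact this
    intro x y
    exact htrans _ _ _ (hsymm _ _ (key x)) (key y)

variable [Fintype Ω]

variable (G)

/-- number of pairs (tuple, point) which separate `x` and `y` -/
noncomputable def cnt (k : ℕ) (x y : Ω) : ℕ :=
  (univ.filter (fun p : (Fin k → Ω) × Ω =>
    (cls G p.1 x).image (cl G p.2) ≠ (cls G p.1 y).image (cl G p.2))).card

variable {G}

theorem cnt_comm (k : ℕ) (x y : Ω) : cnt G k x y = cnt G k y x := by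
  unfold cnt
  congr 1
  ext p
  simp only [mem_filter, mem_univ, true_and, ne_eq]
  exact not_congr eq_comm

theorem cnt_triangle (k : ℕ) (x y z : Ω) : cnt G k x z ≤ cnt G k x y + cnt G k y z := by
  unfold cnt
  refine le_trans (card_le_card ?_) (card_union_le _ _)
  intro p hp
  simp only [mem_filter, mem_univ, true_and, ne_eq, mem_union] at hp ⊢
  by_contra hcon
  push Not at hcon
  exact hp (hcon.1.trans hcon.2)

theorem cnt_smul_le (k : ℕ) (g : G) (x y : Ω) : cnt G k x y ≤ cnt G k (g • x) (g • y) := by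
  unfold cnt
  apply card_le_card_of_injOn (fun p => (g • p.1, g • p.2))
  · intro p hp
    simp only [coe_filter, mem_univ, true_and, Set.mem_ofPred_eq, ne_eq] at hp ⊢
    intro h
    apply hp
    rw [cls_smul, cls_smul, im_smul_inj] at h
    exact h
  · intro p _ q _ h
    simp only [Prod.mk.injEq] at h
    ext1
    · exact MulAction.injective g h.1
    · exact MulAction.injective g h.2

/-- closeness relation at level `j` -/
def Bl (G : Type) {Ω : Type} [Group G] [MulAction G Ω] [Fintype Ω] (k j : ℕ) (x y : Ω) : Prop :=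
  2 ^ j * cnt G k x y ≤ Fintype.card ((Fin k → Ω) × Ω)

theorem Bl.symm {k j : ℕ} {x y : Ω} (h : Bl G k j x y) : Bl G k j y x := by
  unfold Bl at *
  rwa [cnt_comm]

theorem Bl.refl {k j : ℕ} (x : Ω) : Bl G k j x x := by
  unfold Bl cnt
  simp

theorem Bl.smul {k j : ℕ} {x y : Ω} (h : Bl G k j x y) (g : G) : Bl G k j (g • x) (g • y) := by
  unfold Bl at *
  refine le_trans (Nat.mul_le_mul_left _ ?_) h
  have := cnt_smul_le k g⁻¹ (g • x) (g • y)
  simpa using this

theorem Bl.trans {k j : ℕ} {x y z : Ω} (h : Bl G k (j + 1) x y) (h' : Bl G k (j + 1) y z) :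
    Bl G k j x z := by
  unfold Bl at *
  have := cnt_triangle (G := G) k x y z
  have h2 : 2 ^ j * cnt G k x z ≤ 2 ^ j * (cnt G k x y + cnt G k y z) := Nat.mul_le_mul_left _ this
  rw [pow_succ] at h h'
  nlinarith

theorem Bl.mono {k j j' : ℕ} (hj : j ≤ j') {x y : Ω} (h : Bl G k j' x y) : Bl G k j x y := by
  unfold Bl at *
  exact le_trans (Nat.mul_le_mul_right _ (Nat.pow_le_pow_right (by norm_num) hj)) h

/-- number of suborbits of points at level `j` -/
noncomputable def cc (G : Type) {Ω : Type} [Group G] [MulAction G Ω] [Fintype Ω]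
    (k j : ℕ) (x : Ω) : Finset (Finset Ω) := (univ.filter (Bl G k j x)).image (cl G x)

theorem few {m k : ℕ} (hk : 0 < k) (hB : Bd G Ω m) (x : Ω) : (cc G k 1 x).card ≤ 2 * m ^ 2 := by
  set W := Fintype.card ((Fin k → Ω) × Ω) with hW
  have hWpos : 0 < W := by
    rw [hW]
    have : Nonempty Ω := ⟨x⟩
    exact Fintype.card_pos
  -- the suborbits seen by `p`
  let Q : (Fin k → Ω) × Ω → Finset (Finset Ω) := fun p =>
    (univ.filter (fun y => (cls G p.1 x).image (cl G p.2) = (cls G p.1 y).image (cl G p.2))).image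
      (cl G x)
  have hQ : ∀ p, (Q p).card ≤ m ^ 2 := by
    intro p
    have hsub : Q p ⊆ ((cls G p.1 x).image (cl G p.2)).biUnion (fun C => C.image (cl G x)) := by
      intro Z hZ
      simp only [Q, mem_image, mem_filter, mem_univ, true_and] at hZ
      obtain ⟨y, hy, rfl⟩ := hZ
      rw [mem_biUnion]
      refine ⟨cl G p.2 y, ?_, mem_image_of_mem _ (self_mem_cl _ _)⟩
      rw [hy]
      exact mem_image_of_mem _ (self_mem_cls _ _)
    refine le_trans (card_le_card hsub) ?_
    refine le_trans card_biUnion_le ?_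
    refine le_trans (sum_le_sum (g := fun _ => m) ?_) ?_
    · intro C hC
      rw [mem_image] at hC
      obtain ⟨y, _, rfl⟩ := hC
      exact hB _ _ _
    · rw [sum_const, smul_eq_mul, pow_two]
      exact Nat.mul_le_mul_right _ (nu_le hk hB p.1 x p.2)
  have hD : ∀ Z ∈ cc G k 1 x, W ≤ 2 * (univ.filter (fun p => Z ∈ Q p)).card := by
    intro Z hZ
    unfold cc at hZ
    rw [mem_image] at hZ
    obtain ⟨y, hy, rfl⟩ := hZ
    rw [mem_filter] at hy
    have hy2 := hy.2
    unfold Bl cnt at hy2
    rw [← hW, pow_one] at hy2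
    have hsum : (univ.filter (fun p : (Fin k → Ω) × Ω =>
        (cls G p.1 x).image (cl G p.2) = (cls G p.1 y).image (cl G p.2))).card +
        (univ.filter (fun p : (Fin k → Ω) × Ω =>
        ¬ (cls G p.1 x).image (cl G p.2) = (cls G p.1 y).image (cl G p.2))).card = W := by
      rw [card_filter_add_card_filter_not]
      rfl
    have hle : (univ.filter (fun p : (Fin k → Ω) × Ω =>
        (cls G p.1 x).image (cl G p.2) = (cls G p.1 y).image (cl G p.2))).card ≤
        (univ.filter (fun p => cl G x y ∈ Q p)).card := by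
      apply card_le_card
      intro p hp
      simp only [mem_filter, mem_univ, true_and] at hp ⊢
      exact mem_image_of_mem _ (by simpa using hp)
    simp only [ne_eq] at hy2
    omega
  have h1 : (cc G k 1 x).card * W ≤ 2 * ∑ Z ∈ cc G k 1 x, (univ.filter (fun p => Z ∈ Q p)).card := by
    rw [mul_sum, ← smul_eq_mul, ← sum_const]
    exact sum_le_sum hD
  have h2 : ∑ Z ∈ cc G k 1 x, (univ.filter (fun p => Z ∈ Q p)).card ≤ W * m ^ 2 := by
    simp only [card_filter]
    rw [sum_comm]
    calc ∑ p : (Fin k → Ω) × Ω, ∑ Z ∈ cc G k 1 x, (if Z ∈ Q p then 1 else 0)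
        ≤ ∑ p : (Fin k → Ω) × Ω, m ^ 2 := by
          apply sum_le_sum
          intro p _
          rw [← card_filter]
          refine le_trans (card_le_card ?_) (hQ p)
          intro Z hZ
          rw [mem_filter] at hZ
          exact hZ.2
      _ = W * m ^ 2 := by
          rw [sum_const, smul_eq_mul, card_univ]
  have h3 : (cc G k 1 x).card * W ≤ (2 * m ^ 2) * W := by
    calc (cc G k 1 x).card * W ≤ 2 * (W * m ^ 2) := le_trans h1 (Nat.mul_le_mul_left _ h2)
      _ = (2 * m ^ 2) * W := by ring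
  exact Nat.le_of_mul_le_mul_right h3 hWpos

theorem cc_anti {k j j' : ℕ} (hj : j ≤ j') (x : Ω) : cc G k j' x ⊆ cc G k j x := by
  unfold cc
  apply image_subset_image
  intro y hy
  rw [mem_filter] at hy ⊢
  exact ⟨hy.1, hy.2.mono hj⟩

theorem cc_pos {k j : ℕ} (x : Ω) : 0 < (cc G k j x).card := by
  rw [card_pos]
  exact ⟨cl G x x, mem_image_of_mem _ (by rw [mem_filter]; exact ⟨mem_univ _, Bl.refl x⟩)⟩

theorem exists_stable (c : ℕ → ℕ) (N : ℕ) (h0 : c 1 ≤ N) (hpos : ∀ j, 0 < c j)
    (hanti : ∀ j, c (j + 1) ≤ c j) : ∃ j, 1 ≤ j ∧ j ≤ N ∧ c (j + 1) = c j := by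
  by_contra hcon
  push Not at hcon
  have key : ∀ t, t ≤ N → c (t + 1) + t ≤ N := by
    intro t
    induction t with
    | zero => intro _; simpa using h0
    | succ t ih =>
      intro ht
      have h1 := ih (by omega)
      have h2 := hcon (t + 1) (by omega) ht
      have h3 := hanti (t + 1)
      omega
  have := key N le_rfl
  have := hpos (N + 1)
  omega

theorem gap [IsPreprimitive G Ω] {m k : ℕ} (hk : 0 < k) (hB : Bd G Ω m) {a : Ω}
    (hr : 2 * m ^ 2 < rk G a) {x y : Ω} (h : Bl G k (2 * m ^ 2 + 1) x y) : x = y := by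
  obtain ⟨j, hj1, hj2, hj3⟩ := exists_stable (fun j => (cc G k j a).card) (2 * m ^ 2)
    (few hk hB a) (fun j => cc_pos (G := G) (k := k) (j := j) a)
    (fun j => card_le_card (cc_anti (G := G) (k := k) (Nat.le_succ j) a))
  have heq : cc G k (j + 1) a = cc G k j a :=
    by
    apply eq_of_subset_of_card_le (cc_anti (Nat.le_succ j) a)
    exact hj3.ge
  have step : ∀ y, Bl G k j a y → Bl G k (j + 1) a y := by
    intro y hy
    have h1 : cl G a y ∈ cc G k j a :=
      mem_image_of_mem _ (by rw [mem_filter]; exact ⟨mem_univ _, hy⟩)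
    rw [← heq] at h1
    unfold cc at h1
    rw [mem_image] at h1
    obtain ⟨z, hz, hzy⟩ := h1
    rw [mem_filter] at hz
    rw [cl_eq_iff] at hzy
    obtain ⟨g, hg1, hg2⟩ := hzy
    have := hz.2.smul g
    rwa [hg1, hg2] at this
  have step' : ∀ x y : Ω, Bl G k j x y → Bl G k (j + 1) x y := by
    intro x y hxy
    obtain ⟨g, hg⟩ := MulAction.exists_smul_eq G x a
    have h1 := hxy.smul g
    rw [hg] at h1
    have h2 := (step _ h1).smul g⁻¹
    rw [← hg] at h2
    simpa using h2
  rcases prim_equiv (G := G) (Bl G k (j + 1)) (fun x y h => h.symm)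
    (fun x y z h h' => step' x z (h.trans h')) (fun g x y h => h.smul g) with h' | h'
  · exact h' x y (h.mono (by omega))
  · exfalso
    have h1 : rk G a ≤ (cc G k 1 a).card := by
      unfold rk cc
      apply card_le_card
      apply image_subset_image
      intro z _
      rw [mem_filter]
      exact ⟨mem_univ _, (h' a z).mono (by omega)⟩
    have := few hk hB a
    omega

end Pool.Agent.K7.H14.SR
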