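import Pool.Agent.K7.H14.SR.Gap

set_option autoImplicit false

namespace Pool.Agent.K7.H14.SR

open Finset MulAction
open scoped Classical

variable (G : Type) {Ω : Type} [Group G] [MulAction G Ω] [Fintype Ω]

/-- number of pairs for which the class of `x` is not stable -/
noncomputable def bad {k : ℕ} (T : Fin k → Ω) (x : Ω) : ℕ :=
  (univ.filter (fun p : (Fin k → Ω) × Ω =>
    nu G (Fin.append p.1 T) x p.2 ≠ nu G p.1 x p.2 ∨
      nu G (Fin.append p.1 T) x p.2 ≠ nu G T x p.2)).card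

variable {G}

theorem cnt_le_bad {k : ℕ} (T : Fin k → Ω) {x y : Ω} (h : y ∈ cls G T x) :
    cnt G k x y ≤ bad G T x + bad G T y := by
  unfold cnt bad
  refine le_trans (card_le_card ?_) (card_union_le _ _)
  intro p hp
  simp only [mem_filter, mem_univ, true_and, ne_eq, mem_union] at hp ⊢
  by_contra hcon
  push Not at hcon
  obtain ⟨⟨h1, h2⟩, h3, h4⟩ := hcon
  apply hp
  rw [← im_eq_left h1, im_eq_right h2, cls_eq h, ← im_eq_right h4, im_eq_left h3]

/-- auxiliary sum -/
noncomputable def FF (G : Type) {Ω : Type} [Group G] [MulAction G Ω] [Fintype Ω] {k : ℕ}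
    (S T : Fin k → Ω) : ℕ := ∑ x : Ω, ∑ b : Ω, (nu G S x b - nu G (Fin.append S T) x b)

theorem sum_bad_le {k : ℕ} (T : Fin k → Ω) :
    ∑ x : Ω, bad G T x ≤ ∑ S : Fin k → Ω, (FF G S T + FF G T S) := by
  have h1 : ∀ x : Ω, bad G T x ≤ ∑ S : Fin k → Ω, ∑ b : Ω,
      ((nu G S x b - nu G (Fin.append S T) x b) + (nu G T x b - nu G (Fin.append T S) x b)) := by
    intro x
    unfold bad
    rw [card_filter, Fintype.sum_prod_type]
    apply sum_le_sum
    intro S _
    apply sum_le_sum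
    intro b _
    have e1 := nu_append_le (G := G) S T x b
    have e2 := nu_append_le' (G := G) S T x b
    have e3 := nu_append_comm (G := G) S T x b
    show (if nu G (Fin.append S T) x b ≠ nu G S x b ∨ nu G (Fin.append S T) x b ≠ nu G T x b
      then 1 else 0) ≤ _
    split_ifs with h
    · rcases h with h | h <;> omega
    · omega
  refine le_trans (sum_le_sum (fun x _ => h1 x)) ?_
  rw [sum_comm]
  apply sum_le_sum
  intro S _
  unfold FF
  rw [← sum_add_distrib]
  apply sum_le_sum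
  intro x _
  rw [← sum_add_distrib]

theorem sum_sum_bad_le (k : ℕ) :
    ∑ T : Fin k → Ω, ∑ x : Ω, bad G T x ≤ 2 * D1 G Ω k := by
  refine le_trans (sum_le_sum (fun T _ => sum_bad_le T)) ?_
  simp only [sum_add_distrib]
  have h1 : ∑ T : Fin k → Ω, ∑ S : Fin k → Ω, FF G S T = D1 G Ω k := by
    rw [sum_comm]
    rfl
  have h2 : ∑ T : Fin k → Ω, ∑ S : Fin k → Ω, FF G T S = D1 G Ω k := rfl
  rw [h1, h2]
  omega

/-- the points which are not good for `T` -/
noncomputable def ng (G : Type) {Ω : Type} [Group G] [MulAction G Ω] [Fintype Ω] (J : ℕ) {k : ℕ}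
    (T : Fin k → Ω) : Finset Ω :=
  univ.filter (fun x => ¬ 2 ^ (J + 1) * bad G T x ≤ Fintype.card ((Fin k → Ω) × Ω))

theorem good_exists [Nonempty Ω] {m : ℕ} (J : ℕ) (hB : Bd G Ω m) :
    ∃ k, 0 < k ∧ k ≤ 2 ^ (2 ^ (J + 4) * (m + 1)) ∧ ∃ T : Fin k → Ω,
      4 * (ng G J T).card ≤ Fintype.card Ω := by
  obtain ⟨i, hi, hD⟩ := plateau (G := G) (Ω := Ω) (m := m) (I := 2 ^ (J + 4) * (m + 1))
    (by positivity) hB
  refine ⟨2 ^ i, by positivity, Nat.pow_le_pow_right (by norm_num) hi.le, ?_⟩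
  set k := 2 ^ i with hk
  by_contra hcon
  push Not at hcon
  set n := Fintype.card Ω with hn
  have hn0 : 0 < n := Fintype.card_pos
  set W := Fintype.card ((Fin k → Ω) × Ω) with hW
  have hWe : W = n ^ (k + 1) := by
    rw [hW, Fintype.card_prod, Fintype.card_fun, Fintype.card_fin, pow_succ]
  have hW0 : 0 < W := by rw [hWe]; positivity
  have h1 : W < 4 * ∑ T : Fin k → Ω, (ng G J T).card := by
    have : ∑ T : Fin k → Ω, n < ∑ T : Fin k → Ω, 4 * (ng G J T).card := by
      apply sum_lt_sum_of_nonempty univ_nonempty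
      intro T _
      exact hcon T
    rw [← mul_sum, sum_const, card_univ, Fintype.card_fun, Fintype.card_fin, smul_eq_mul] at this
    rw [hWe, pow_succ]
    exact this
  have h2 : ∀ T : Fin k → Ω, W * (ng G J T).card ≤ 2 ^ (J + 1) * ∑ x : Ω, bad G T x := by
    intro T
    calc W * (ng G J T).card = ∑ x ∈ ng G J T, W := by rw [sum_const, smul_eq_mul, mul_comm]
      _ ≤ ∑ x ∈ ng G J T, 2 ^ (J + 1) * bad G T x := by
          apply sum_le_sum
          intro x hx
          unfold ng at hx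
          rw [mem_filter] at hx
          exact (not_le.1 hx.2).le
      _ ≤ ∑ x : Ω, 2 ^ (J + 1) * bad G T x :=
          sum_le_sum_of_subset (subset_univ _)
      _ = _ := by rw [mul_sum]
  have h3 : W * ∑ T : Fin k → Ω, (ng G J T).card ≤ 2 ^ (J + 1) * (2 * D1 G Ω k) := by
    rw [mul_sum]
    refine le_trans (sum_le_sum (fun T _ => h2 T)) ?_
    rw [← mul_sum]
    exact Nat.mul_le_mul_left _ (sum_sum_bad_le k)
  have h4 : W * W < 2 ^ (J + 4) * D1 G Ω k := by
    calc W * W < W * (4 * ∑ T : Fin k → Ω, (ng G J T).card) := Nat.mul_lt_mul_of_pos_left h1 hW0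
      _ = 4 * (W * ∑ T : Fin k → Ω, (ng G J T).card) := by ring
      _ ≤ 4 * (2 ^ (J + 1) * (2 * D1 G Ω k)) := Nat.mul_le_mul_left _ h3
      _ = 2 ^ (J + 4) * D1 G Ω k := by ring
  have h5 : D1 G Ω k * (2 ^ (J + 4) * (m + 1)) ≤ m * (W * W) := by
    refine le_trans hD (le_of_eq ?_)
    rw [hWe]
    ring
  have h6 : W * W * (m + 1) ≤ m * (W * W) := by
    calc W * W * (m + 1) ≤ 2 ^ (J + 4) * D1 G Ω k * (m + 1) :=
          Nat.mul_le_mul_right _ h4.le
      _ = D1 G Ω k * (2 ^ (J + 4) * (m + 1)) := by ring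
      _ ≤ _ := h5
  have : 0 < W * W := by positivity
  nlinarith

theorem good_inj [IsPreprimitive G Ω] {m k : ℕ} (hk : 0 < k) (hB : Bd G Ω m) {a : Ω}
    (hr : 2 * m ^ 2 < rk G a) (T : Fin k → Ω) {x y : Ω}
    (hx : x ∉ ng G (2 * m ^ 2 + 1) T) (hy : y ∉ ng G (2 * m ^ 2 + 1) T) (h : y ∈ cls G T x) :
    x = y := by
  apply gap hk hB hr
  unfold Bl
  unfold ng at hx hy
  simp only [mem_filter, mem_univ, true_and, not_not] at hx hy
  have := cnt_le_bad T h
  have h2 : 2 ^ (2 * m ^ 2 + 1) * cnt G k x y ≤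
    2 ^ (2 * m ^ 2 + 1) * (bad G T x + bad G T y) := Nat.mul_le_mul_left _ this
  rw [pow_succ] at hx hy
  nlinarith

theorem good_count [IsPreprimitive G Ω] {m k : ℕ} (hk : 0 < k) (hB : Bd G Ω m) {a : Ω}
    (hr : 2 * m ^ 2 < rk G a) (T : Fin k → Ω) :
    (univ.filter (fun x => x ∉ ng G (2 * m ^ 2 + 1) T)).card ≤ m ^ k * rk G a := by
  refine le_trans (card_le_mul_card_image (f := cl G a) _ (m ^ k) ?_)
    (Nat.mul_le_mul_left _ (card_le_card (image_subset_image (subset_univ _))))
  intro C hC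
  rw [mem_image] at hC
  obtain ⟨z, _, rfl⟩ := hC
  have h1 : (Fintype.piFinset (fun i : Fin k => (cl G a z).image (cl G (T i)))).card ≤ m ^ k := by
    rw [Fintype.card_piFinset]
    refine le_trans (prod_le_pow_card _ _ m (fun i _ => hB _ _ _)) ?_
    rw [card_univ, Fintype.card_fin]
  refine le_trans ?_ h1
  apply card_le_card_of_injOn (fun x => fun i => cl G (T i) x)
  · intro x hx
    simp only [coe_filter, mem_filter, mem_univ, true_and, Set.mem_ofPred_eq] at hx
    rw [mem_coe, Fintype.mem_piFinset]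
    intro i
    apply mem_image_of_mem
    rw [← hx.2]
    exact self_mem_cl _ _
  · intro x hx y hy hxy
    simp only [coe_filter, mem_filter, mem_univ, true_and, Set.mem_ofPred_eq] at hx hy
    apply good_inj hk hB hr T hx.1 hy.1
    rw [mem_cls]
    intro i
    exact cl_eq_iff.1 (congrFun hxy i)

theorem size_le [Nonempty Ω] [IsPreprimitive G Ω] {m : ℕ} (hB : Bd G Ω m) {a : Ω}
    (hr : 2 * m ^ 2 < rk G a) : ∃ k, k ≤ 2 ^ (2 ^ (2 * m ^ 2 + 1 + 4) * (m + 1)) ∧
      Fintype.card Ω ≤ 2 * (m ^ k * rk G a) := by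
  obtain ⟨k, hk, hkle, T, hT⟩ := good_exists (G := G) (Ω := Ω) (2 * m ^ 2 + 1) hB
  refine ⟨k, hkle, ?_⟩
  have h1 := good_count hk hB hr T
  have h2 : (univ.filter (fun x => x ∉ ng G (2 * m ^ 2 + 1) T)).card +
      (ng G (2 * m ^ 2 + 1) T).card = Fintype.card Ω := by
    have := card_filter_add_card_filter_not (s := (univ : Finset Ω))
      (fun x => x ∉ ng G (2 * m ^ 2 + 1) T)
    simp only [not_not] at this
    rw [filter_mem_eq_inter, univ_inter] at this
    rw [this]
    rfl
  omega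

theorem sum_classes (a : Ω) : ∑ F ∈ (univ : Finset Ω).image (cl G a), F.card = Fintype.card Ω := by
  rw [← card_univ, card_eq_sum_card_image (cl G a) univ]
  apply sum_congr rfl
  intro F hF
  rw [mem_image] at hF
  obtain ⟨y, _, rfl⟩ := hF
  congr 1
  ext x
  rw [mem_filter, mem_cl, cl_eq_iff]
  exact ⟨fun h => ⟨mem_univ _, h.symm⟩, fun h => h.2.symm⟩

theorem deg_le [IsPretransitive G Ω] {m : ℕ} (hB : Bd G Ω m) (a b : Ω) :
    rk G a * (cl G a b).card ≤ m ^ 2 * Fintype.card Ω := by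
  set N := (cl G a b).card with hN
  have hN0 : 0 < N := card_pos.2 ⟨b, self_mem_cl a b⟩
  let s : Finset (Finset Ω) := univ.image (cl G a)
  let t : Finset (Finset Ω) := s.filter (fun F => N ≤ m * F.card)
  let r : Finset Ω → Finset Ω → Prop := fun C F => ∃ x ∈ C, ∃ y ∈ F, ∃ g : G, g • a = x ∧ g • b = y
  have key : s.card * 1 ≤ t.card * m := by
    apply card_mul_le_card_mul r
    · intro C hC
      rw [mem_image] at hC
      obtain ⟨x, _, rfl⟩ := hC
      obtain ⟨g, hg⟩ := MulAction.exists_smul_eq G a x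
      have hcard : (cl G x (g • b)).card = N := by
        rw [← hg, card_cl_smul]
      have hex : ∃ F ∈ (cl G x (g • b)).image (cl G a), N ≤ m * F.card := by
        by_contra hcon
        push Not at hcon
        have hne : ((cl G x (g • b)).image (cl G a)).Nonempty :=
          ⟨_, mem_image_of_mem _ (self_mem_cl _ _)⟩
        have h1 : N ≤ ∑ F ∈ (cl G x (g • b)).image (cl G a), F.card := by
          rw [← hcard]
          refine le_trans (card_le_card (t := ((cl G x (g • b)).image (cl G a)).biUnion id) ?_)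
            card_biUnion_le
          intro y hy
          rw [mem_biUnion]
          exact ⟨cl G a y, mem_image_of_mem _ hy, self_mem_cl _ _⟩
        have h2 : ∑ F ∈ (cl G x (g • b)).image (cl G a), m * F.card <
            ∑ F ∈ (cl G x (g • b)).image (cl G a), N := sum_lt_sum_of_nonempty hne hcon
        rw [← mul_sum, sum_const, smul_eq_mul] at h2
        have h3 := hB x a (g • b)
        have h4 : m * N ≤ m * ∑ F ∈ (cl G x (g • b)).image (cl G a), F.card :=
          Nat.mul_le_mul_left _ h1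
        have h5 : ((cl G x (g • b)).image (cl G a)).card * N ≤ m * N := Nat.mul_le_mul_right _ h3
        omega
      obtain ⟨F, hF, hFN⟩ := hex
      rw [Nat.one_le_iff_ne_zero, ← Nat.pos_iff_ne_zero, card_pos]
      refine ⟨F, ?_⟩
      rw [mem_bipartiteAbove, mem_filter]
      rw [mem_image] at hF
      obtain ⟨y, hy, rfl⟩ := hF
      refine ⟨⟨mem_image_of_mem _ (mem_univ _), hFN⟩, x, self_mem_cl _ _, y, self_mem_cl _ _, ?_⟩
      rw [mem_cl] at hy
      obtain ⟨h, h1, h2⟩ := hy
      exact ⟨h * g, by rw [mul_smul, hg, h1], by rw [mul_smul, h2]⟩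
    · intro F hF
      rw [mem_filter, mem_image] at hF
      obtain ⟨⟨y, _, rfl⟩, _⟩ := hF
      by_cases hex : ∃ x1 : Ω, ∃ g : G, g • a = x1 ∧ g • b = y
      · obtain ⟨x1, g1, hg1, hg1'⟩ := hex
        refine le_trans (card_le_card ?_) (hB y a x1)
        intro C hC
        rw [mem_bipartiteBelow] at hC
        obtain ⟨hC, x, hx, y', hy', g, hg, hg'⟩ := hC
        rw [mem_image] at hC
        obtain ⟨z, _, rfl⟩ := hC
        rw [mem_cl] at hx hy'
        obtain ⟨k, hk1, hk2⟩ := hy'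
        rw [mem_image]
        refine ⟨k⁻¹ • x, ?_, ?_⟩
        · rw [mem_cl]
          refine ⟨k⁻¹ * g * g1⁻¹, ?_, ?_⟩
          · rw [mul_smul, mul_smul, ← hg1', inv_smul_smul, hg', ← hk2, inv_smul_smul, hg1']
          · rw [mul_smul, mul_smul, ← hg1, inv_smul_smul, hg]
        · rw [cl_eq_iff]
          apply E.symm
          refine hx.trans ⟨k⁻¹, ?_, rfl⟩
          rw [inv_smul_eq_iff, hk1]
      · have : (s.bipartiteBelow r (cl G a y)) = ∅ := by
          rw [eq_empty_iff_forall_notMem]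
          intro C hC
          rw [mem_bipartiteBelow] at hC
          obtain ⟨hC, x, hx, y', hy', g, hg, hg'⟩ := hC
          rw [mem_cl] at hy'
          obtain ⟨k, hk1, hk2⟩ := hy'
          apply hex
          refine ⟨k⁻¹ • x, k⁻¹ * g, ?_, ?_⟩
          · rw [mul_smul, hg]
          · rw [mul_smul, hg', ← hk2, inv_smul_smul]
        rw [this]
        simp
  have h2 : t.card * N ≤ m * Fintype.card Ω := by
    calc t.card * N = ∑ F ∈ t, N := by rw [sum_const, smul_eq_mul]
      _ ≤ ∑ F ∈ t, m * F.card := by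
          apply sum_le_sum
          intro F hF
          rw [mem_filter] at hF
          exact hF.2
      _ = m * ∑ F ∈ t, F.card := by rw [mul_sum]
      _ ≤ m * ∑ F ∈ s, F.card := Nat.mul_le_mul_left _ (sum_le_sum_of_subset (filter_subset _ _))
      _ = m * Fintype.card Ω := by rw [sum_classes]
  have h3 : rk G a = s.card := rfl
  rw [h3]
  calc s.card * N = s.card * 1 * N := by ring
    _ ≤ t.card * m * N := Nat.mul_le_mul_right _ key
    _ = m * (t.card * N) := by ring
    _ ≤ m * (m * Fintype.card Ω) := Nat.mul_le_mul_left _ h2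
    _ = _ := by ring

/-- all suborbits are bounded, or the rank is -/
theorem subdeg_le [Nonempty Ω] [IsPreprimitive G Ω] {m : ℕ} (hB : Bd G Ω m) {a : Ω}
    (hr : 2 * m ^ 2 < rk G a) (b : Ω) :
    (cl G a b).card ≤ 2 * m ^ 2 * m ^ (2 ^ (2 ^ (2 * m ^ 2 + 1 + 4) * (m + 1))) := by
  obtain ⟨k, hk, hn⟩ := size_le hB hr
  have h1 := deg_le hB a b
  have hr0 : 0 < rk G a := by omega
  have hm : 0 < m := lt_of_lt_of_le (card_pos.2 ⟨_, mem_image_of_mem _ (self_mem_cl a a)⟩)
    (hB a a a)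
  have h2 : rk G a * (cl G a b).card ≤ rk G a * (2 * m ^ 2 * m ^ k) := by
    calc rk G a * (cl G a b).card ≤ m ^ 2 * Fintype.card Ω := h1
      _ ≤ m ^ 2 * (2 * (m ^ k * rk G a)) := Nat.mul_le_mul_left _ hn
      _ = _ := by ring
  have h3 := Nat.le_of_mul_le_mul_left h2 hr0
  refine le_trans h3 (Nat.mul_le_mul_left _ (Nat.pow_le_pow_right hm hk))

end Pool.Agent.K7.H14.SR
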