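import Pool.Agent.K7.H14.SR.Small

set_option autoImplicit false

namespace Pool.Agent.K7.H14.SR

open Finset MulAction
open scoped Classical

section burnside

variable {H : Type} {Ω : Type} [Group H] [MulAction H Ω] [Fintype H] [Fintype Ω]

/-- number of orbits on pairs -/
noncomputable def NN (H : Type) {Ω : Type} [Group H] [MulAction H Ω] [Fintype H] [Fintype Ω]
    (p q : Ω) : ℕ :=
  Fintype.card (Quotient (orbitRel H ((orbit H p) × (orbit H q))))

theorem burnside (p q : Ω) :
    ∑ h : H, Fintype.card (fixedBy (orbit H p) h) * Fintype.card (fixedBy (orbit H q) h) =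
      NN H p q * Fintype.card H := by
  unfold NN
  rw [← sum_card_fixedBy_eq_card_orbits_mul_card_group H ((orbit H p) × (orbit H q))]
  apply sum_congr rfl
  intro h _
  rw [← Fintype.card_prod]
  apply Fintype.card_congr
  exact
    { toFun := fun x => ⟨(x.1.1, x.2.1), by
        rw [mem_fixedBy]
        ext1
        · exact x.1.2
        · exact x.2.2⟩
      invFun := fun x => (⟨x.1.1, by
        have := x.2
        rw [mem_fixedBy] at this
        exact congrArg Prod.fst this⟩, ⟨x.1.2, by
        have := x.2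
        rw [mem_fixedBy] at this
        exact congrArg Prod.snd this⟩)
      left_inv := fun x => rfl
      right_inv := fun x => rfl }

theorem NN_sq_le (p q : Ω) : NN H p q ^ 2 ≤ NN H p p * NN H q q := by
  have h0 : 0 < Fintype.card H := Fintype.card_pos
  have h1 := sum_mul_sq_le_sq_mul_sq (univ : Finset H)
    (fun h => Fintype.card (fixedBy (orbit H p) h)) (fun h => Fintype.card (fixedBy (orbit H q) h))
  have e1 := burnside (H := H) p q
  have e2 := burnside (H := H) p p
  have e3 := burnside (H := H) q q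
  simp only [pow_two] at h1
  rw [e1, e2, e3] at h1
  have h2 : NN H p q ^ 2 * (Fintype.card H * Fintype.card H) ≤
      (NN H p p * NN H q q) * (Fintype.card H * Fintype.card H) := by
    calc _ = NN H p q * Fintype.card H * (NN H p q * Fintype.card H) := by ring
      _ ≤ _ := h1
      _ = _ := by ring
  exact Nat.le_of_mul_le_mul_right h2 (by positivity)

/-- the orbits of the stabiliser of `p` on the orbit of `p` -/
def OS (H : Type) {Ω : Type} [Group H] [MulAction H Ω] (p : Ω) : Set (Set Ω) :=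
  {O : Set Ω | ∃ y ∈ orbit H p, O = orbit (stabilizer H p) y}

theorem OS_finite (p : Ω) : (OS H p).Finite := Set.toFinite _

theorem NN_self_le (p : Ω) : NN H p p ≤ (OS H p).ncard := by
  unfold NN
  have hch : ∀ x : (orbit H p) × (orbit H p), ∃ h : H, h • p = (x.1 : Ω) := fun x => x.1.2
  choose c hc using hch
  rw [← Nat.card_eq_fintype_card, ← Set.ncard_univ]
  apply Set.ncard_le_ncard_of_injOn
    (fun q : Quotient (orbitRel H ((orbit H p) × (orbit H p))) =>
      orbit (stabilizer H p) ((c q.out)⁻¹ • (q.out.2 : Ω)))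
  · intro q _
    refine ⟨(c q.out)⁻¹ • (q.out.2 : Ω), ?_, rfl⟩
    rw [← orbit_eq_iff, orbit_smul]
    rw [orbit_eq_iff]
    exact q.out.2.2
  · intro q _ q' _ h
    simp only at h
    rw [orbit_eq_iff] at h
    obtain ⟨s, hs⟩ := h
    have hs' : (s : H) • (c q'.out)⁻¹ • (q'.out.2 : Ω) = (c q.out)⁻¹ • (q.out.2 : Ω) := hs
    rw [← Quotient.out_eq q, ← Quotient.out_eq q']
    apply Quotient.sound
    show (orbitRel H _) _ _
    rw [orbitRel_apply]
    refine ⟨c q.out * s * (c q'.out)⁻¹, ?_⟩
    simp only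
    ext1
    · apply Subtype.ext
      show (c q.out * s * (c q'.out)⁻¹) • (q'.out.1 : Ω) = (q.out.1 : Ω)
      rw [mul_smul, mul_smul, ← hc q'.out, inv_smul_smul, s.2, hc]
    · apply Subtype.ext
      show (c q.out * s * (c q'.out)⁻¹) • (q'.out.2 : Ω) = (q.out.2 : Ω)
      rw [mul_smul, mul_smul, hs', smul_inv_smul]

end burnside

variable {G : Type} {Ω : Type} [Group G] [MulAction G Ω] [Fintype G] [Fintype Ω]

theorem image_le_NN (a b x : Ω) :
    ((cl G a x).image (cl G b)).card ≤ NN (stabilizer G a) b x := by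
  unfold NN
  rw [← Fintype.card_coe]
  have hch : ∀ C : ((cl G a x).image (cl G b)), ∃ y, y ∈ cl G a x ∧ cl G b y = C := by
    intro C
    have := C.2
    rw [mem_image] at this
    obtain ⟨y, hy, h⟩ := this
    exact ⟨y, hy, h⟩
  choose y hy1 hy2 using hch
  have hyo : ∀ C, y C ∈ orbit (stabilizer G a) x := by
    intro C
    have := hy1 C
    rw [mem_cl] at this
    obtain ⟨g, h1, h2⟩ := this
    exact ⟨⟨g, h1⟩, h2⟩
  apply Fintype.card_le_of_injective (fun C => (Quotient.mk (orbitRel (stabilizer G a)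
    ((orbit (stabilizer G a) b) × (orbit (stabilizer G a) x)))
      (⟨b, mem_orbit_self b⟩, ⟨y C, hyo C⟩)))
  intro C C' h
  have h' := Quotient.exact h
  have h'' : (orbitRel (stabilizer G a)
    ((orbit (stabilizer G a) b) × (orbit (stabilizer G a) x)))
      (⟨b, mem_orbit_self b⟩, ⟨y C, hyo C⟩) (⟨b, mem_orbit_self b⟩, ⟨y C', hyo C'⟩) := h'
  rw [orbitRel_apply] at h''
  obtain ⟨g, hg⟩ := h''
  simp only [Prod.ext_iff, Subtype.ext_iff] at hg
  apply Subtype.ext
  rw [← hy2 C, ← hy2 C']
  apply Eq.symm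
  rw [cl_eq_iff]
  exact ⟨(g : G), hg.1, hg.2⟩

theorem bd_of_rank [IsPretransitive G Ω] (a : Ω) {m : ℕ}
    (h : ∀ p : Ω, (OS (stabilizer G a) p).ncard ≤ m) : Bd G Ω m := by
  have h1 : ∀ b x : Ω, ((cl G a x).image (cl G b)).card ≤ m := by
    intro b x
    refine (image_le_NN a b x).trans ?_
    have h2 := NN_sq_le (H := stabilizer G a) b x
    have h3 := (NN_self_le (H := stabilizer G a) b).trans (h b)
    have h4 := (NN_self_le (H := stabilizer G a) x).trans (h x)
    have h5 : NN (stabilizer G a) b x ^ 2 ≤ m ^ 2 := by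
      rw [pow_two m]
      exact h2.trans (Nat.mul_le_mul h3 h4)
    exact (Nat.pow_le_pow_iff_left (by norm_num)).1 h5
  intro a' b x
  obtain ⟨g, rfl⟩ := MulAction.exists_smul_eq G a a'
  have h2 := h1 (g⁻¹ • b) (g⁻¹ • x)
  have h3 : (cl G (g • a) x).image (cl G b) =
      ((cl G a (g⁻¹ • x)).image (cl G (g⁻¹ • b))).image (fun C => C.image (fun y => g • y)) := by
    rw [← im_smul, ← cl_smul, smul_inv_smul, smul_inv_smul]
  rw [h3, card_image_of_injective _ (image_injective (MulAction.injective g))]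
  exact h2

theorem card_quot_le (a : Ω) :
    Nat.card (orbitRel.Quotient (stabilizer G a) Ω) ≤ rk G a := by
  unfold rk
  rw [Nat.card_eq_fintype_card, ← card_univ]
  apply card_le_card_of_injOn (fun q => cl G a q.out)
  · intro q _
    rw [mem_coe]
    exact mem_image_of_mem _ (mem_univ _)
  · intro q _ q' _ h
    simp only at h
    rw [cl_eq_iff] at h
    obtain ⟨g, h1, h2⟩ := h
    rw [← Quotient.out_eq q, ← Quotient.out_eq q']
    apply Eq.symm
    apply Quotient.sound
    show (orbitRel (stabilizer G a) Ω) _ _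
    rw [orbitRel_apply]
    exact ⟨⟨g, h1⟩, h2⟩

theorem card_PF_singleton (a : Ω) : (PF G {a}).card = Nat.card (stabilizer G a) := by
  rw [Nat.card_eq_fintype_card]
  rw [Fintype.card_of_subtype]
  intro g
  rw [mem_PF]
  constructor
  · intro h
    exact h a (mem_singleton_self a)
  · intro h b hb
    rw [mem_singleton] at hb
    subst hb
    exact h

theorem exists_fix (a : Ω) {m : ℕ} (h : ∀ p : Ω, (OS (stabilizer G a) p).ncard ≤ m)
    (hm : ¬ Nat.card (stabilizer G a) ≤ m) (b : Ω) : ∃ g : G, g ≠ 1 ∧ g • a = a ∧ g • b = b := by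
  by_contra hcon
  push Not at hcon
  apply hm
  refine le_trans ?_ (h b)
  rw [← Set.ncard_univ]
  have key : ∀ g : G, g • a = a → g • b = b → g = 1 := by
    intro g h1 h2
    by_contra h3
    exact hcon g h3 h1 h2
  apply Set.ncard_le_ncard_of_injOn (fun s : stabilizer G a =>
    orbit (stabilizer (stabilizer G a) b) (s • b))
  · intro s _
    exact ⟨s • b, ⟨s, rfl⟩, rfl⟩
  · intro s _ t _ hst
    simp only at hst
    rw [orbit_eq_iff] at hst
    obtain ⟨u, hu⟩ := hst
    have hu' : ((u : stabilizer G a) : G) • (t : G) • b = (s : G) • b := hu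
    have hu1 : ((u : stabilizer G a) : G) = 1 := by
      apply key
      · exact u.1.2
      · exact u.2
    rw [hu1, one_smul] at hu'
    have h2 : ((s : G)⁻¹ * (t : G)) = 1 := by
      apply key
      · rw [mul_smul, t.2, inv_smul_eq_iff, s.2]
      · rw [mul_smul, hu', inv_smul_smul]
    apply Subtype.ext
    rw [inv_mul_eq_one] at h2
    exact h2

/-- bounds -/
def C1 (m : ℕ) : ℕ := 2 * m ^ 2 * m ^ (2 ^ (2 ^ (2 * m ^ 2 + 1 + 4) * (m + 1)))

def C2 (m : ℕ) : ℕ := C1 m ^ (jj (C1 m) (C1 m))

def ff (m : ℕ) : ℕ := 2 * m ^ 2 + C1 m ^ (jj (C1 m) (C1 m) + 1) + (C2 m ^ 2) ^ (C2 m ^ 2)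

end Pool.Agent.K7.H14.SR
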