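import Pool.Agent.K7.H14.SR.Good
import Pool.Agent.K7.H14.SR.Rank

set_option autoImplicit false

namespace Pool.Agent.K7.H14.SR

open MulAction

/-- Rank of a primitive group in terms of its subrank. -/
theorem main (α : Type) [Fintype α] (G : Subgroup (Equiv.Perm α))
    (hprim : MulAction.IsPreprimitive G α) (a : α) (m : ℕ)
    (h : ∀ δ : α, Set.ncard {O : Set α | ∃ y ∈ MulAction.orbit (MulAction.stabilizer G a) δ,
          O = MulAction.orbit (MulAction.stabilizer (MulAction.stabilizer G a) δ) y} ≤ m) :
      Nat.card (MulAction.orbitRel.Quotient (MulAction.stabilizer G a) α) ≤ ff m ∨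
        Nat.card (MulAction.stabilizer G a) ≤ m := by
  classical
  have hne : Nonempty α := ⟨a⟩
  have hB : Bd G α m := bd_of_rank a h
  by_cases hm : Nat.card (MulAction.stabilizer G a) ≤ m
  · exact Or.inr hm
  left
  refine (card_quot_le a).trans ?_
  by_cases hr : 2 * m ^ 2 < rk G a
  · have hsub := subdeg_le hB hr
    have hC : ∀ x y : α, (cl G x y).card ≤ C1 m := by
      intro x y
      obtain ⟨g, rfl⟩ := MulAction.exists_smul_eq G a x
      have h1 := hsub (g⁻¹ • y)
      rw [← card_cl_smul g, smul_inv_smul] at h1
      exact h1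
    have hC0 : 1 ≤ C1 m :=
      le_trans (Finset.card_pos.2 ⟨a, self_mem_cl (G := G) a a⟩) (hC a a)
    have hrk : rk G a ≤ Fintype.card α := by
      unfold rk
      exact Finset.card_image_le.trans (le_of_eq (Finset.card_univ))
    rcases bl hC0 hC with hbl | hbl
    · have h1 := small (G := G) a (h := C2 m) hbl (exists_fix a h hm)
      unfold ff
      omega
    · unfold ff
      omega
  · unfold ff
    omega

end Pool.Agent.K7.H14.SR
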