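import Pool.Agent.K7.H14.SR.Basic

set_option autoImplicit false

namespace Pool.Agent.K7.H14.SR

open Finset MulAction
open scoped Classical

variable (G : Type) {Ω : Type} [Group G] [MulAction G Ω] [Fintype Ω]

/-- number of `b`-classes meeting the class of `x` for the tuple `S`. -/
noncomputable def nu {k : ℕ} (S : Fin k → Ω) (x b : Ω) : ℕ := ((cls G S x).image (cl G b)).card

variable {G}

theorem nu_le {m k : ℕ} (hk : 0 < k) (hB : Bd G Ω m) (S : Fin k → Ω) (x b : Ω) :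
    nu G S x b ≤ m :=
  le_trans (card_le_card (image_subset_image (cls_subset_cl S ⟨0, hk⟩ x))) (hB _ _ _)

theorem nu_append_le {k l : ℕ} (S : Fin k → Ω) (T : Fin l → Ω) (x b : Ω) :
    nu G (Fin.append S T) x b ≤ nu G S x b := by
  unfold nu
  rw [cls_append]
  exact card_le_card (image_subset_image inter_subset_left)

theorem nu_append_le' {k l : ℕ} (S : Fin k → Ω) (T : Fin l → Ω) (x b : Ω) :
    nu G (Fin.append S T) x b ≤ nu G T x b := by
  unfold nu
  rw [cls_append]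
  exact card_le_card (image_subset_image inter_subset_right)

theorem nu_append_comm {k l : ℕ} (S : Fin k → Ω) (T : Fin l → Ω) (x b : Ω) :
    nu G (Fin.append S T) x b = nu G (Fin.append T S) x b := by
  unfold nu
  rw [cls_append, cls_append, inter_comm]

theorem im_eq_left {k l : ℕ} {S : Fin k → Ω} {T : Fin l → Ω} {x b : Ω}
    (h : nu G (Fin.append S T) x b = nu G S x b) :
    (cls G (Fin.append S T) x).image (cl G b) = (cls G S x).image (cl G b) := by
  apply eq_of_subset_of_card_le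
  · rw [cls_append]
    exact image_subset_image inter_subset_left
  · exact h.ge

theorem im_eq_right {k l : ℕ} {S : Fin k → Ω} {T : Fin l → Ω} {x b : Ω}
    (h : nu G (Fin.append S T) x b = nu G T x b) :
    (cls G (Fin.append S T) x).image (cl G b) = (cls G T x).image (cl G b) := by
  apply eq_of_subset_of_card_le
  · rw [cls_append]
    exact image_subset_image inter_subset_right
  · exact h.ge

variable (G Ω)

/-- total number of classes met -/
noncomputable def A (k : ℕ) : ℕ := ∑ S : Fin k → Ω, ∑ x : Ω, ∑ b : Ω, nu G S x b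

noncomputable def D1 (k : ℕ) : ℕ := ∑ S : Fin k → Ω, ∑ T : Fin k → Ω, ∑ x : Ω, ∑ b : Ω,
  (nu G S x b - nu G (Fin.append S T) x b)

variable {G Ω}

theorem D1_add (k : ℕ) : D1 G Ω k + A G Ω (k + k) = (Fintype.card Ω) ^ k * A G Ω k := by
  have h1 : A G Ω (k + k) = ∑ S : Fin k → Ω, ∑ T : Fin k → Ω, ∑ x : Ω, ∑ b : Ω,
      nu G (Fin.append S T) x b := by
    unfold A
    rw [← (Fin.appendEquiv k k).sum_comp, Fintype.sum_prod_type]
    rfl
  have h2 : (Fintype.card Ω) ^ k * A G Ω k = ∑ S : Fin k → Ω, ∑ T : Fin k → Ω, ∑ x : Ω,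
      ∑ b : Ω, nu G S x b := by
    unfold A
    rw [mul_sum]
    apply sum_congr rfl
    intro S _
    rw [sum_const, card_univ, Fintype.card_fun, Fintype.card_fin, smul_eq_mul]
  rw [h1, h2]
  unfold D1
  rw [← sum_add_distrib]
  apply sum_congr rfl
  intro S _
  rw [← sum_add_distrib]
  apply sum_congr rfl
  intro T _
  rw [← sum_add_distrib]
  apply sum_congr rfl
  intro x _
  rw [← sum_add_distrib]
  apply sum_congr rfl
  intro b _
  exact Nat.sub_add_cancel (nu_append_le S T x b)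

theorem A_le {m k : ℕ} (hk : 0 < k) (hB : Bd G Ω m) :
    A G Ω k ≤ m * (Fintype.card Ω) ^ (k + 2) := by
  unfold A
  calc ∑ S : Fin k → Ω, ∑ x : Ω, ∑ b : Ω, nu G S x b
      ≤ ∑ S : Fin k → Ω, ∑ x : Ω, ∑ b : Ω, m := by
        apply sum_le_sum; intro S _
        apply sum_le_sum; intro x _
        apply sum_le_sum; intro b _
        exact nu_le hk hB S x b
    _ = m * (Fintype.card Ω) ^ (k + 2) := by
        simp only [sum_const, card_univ, Fintype.card_fun, Fintype.card_fin, smul_eq_mul]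
        ring

theorem plateau [Nonempty Ω] {m I : ℕ} (hI : 0 < I) (hB : Bd G Ω m) :
    ∃ i < I, D1 G Ω (2 ^ i) * I ≤ m * (Fintype.card Ω) ^ (2 ^ i + 2 ^ i + 2) := by
  set n : ℝ := (Fintype.card Ω : ℝ) with hn
  have hn0 : 0 < n := by
    rw [hn]; exact_mod_cast Fintype.card_pos
  let f : ℕ → ℝ := fun i => (A G Ω (2 ^ i) : ℝ) / n ^ (2 ^ i + 2)
  have hf0 : f 0 ≤ m := by
    show (A G Ω (2 ^ 0) : ℝ) / n ^ (2 ^ 0 + 2) ≤ m
    rw [div_le_iff₀ (by positivity)]
    have := A_le (k := 2 ^ 0) (by norm_num) hB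
    have h2 : (A G Ω (2 ^ 0) : ℝ) ≤ ((m * (Fintype.card Ω) ^ (2 ^ 0 + 2) : ℕ) : ℝ) := by
      exact_mod_cast this
    rw [hn]
    push_cast at h2
    exact h2
  have hfI : 0 ≤ f I := by
    show 0 ≤ (A G Ω (2 ^ I) : ℝ) / n ^ (2 ^ I + 2)
    positivity
  have hsum : ∑ i ∈ range I, (f i - f (i + 1)) ≤ ∑ i ∈ range I, ((m : ℝ) / I) := by
    rw [sum_range_sub', sum_const, card_range, nsmul_eq_mul]
    have : (0 : ℝ) < I := by exact_mod_cast hI
    rw [mul_div_cancel₀ _ this.ne']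
    linarith
  obtain ⟨i, hi, hle⟩ := exists_le_of_sum_le (nonempty_range_iff.2 hI.ne') hsum
  refine ⟨i, mem_range.1 hi, ?_⟩
  have hIp : (0 : ℝ) < I := by exact_mod_cast hI
  have hD : (D1 G Ω (2 ^ i) : ℝ) + (A G Ω (2 ^ i + 2 ^ i) : ℝ) = n ^ (2 ^ i) * A G Ω (2 ^ i) := by
    have := D1_add (G := G) (Ω := Ω) (2 ^ i)
    rw [hn]
    exact_mod_cast this
  have hpow : 2 ^ (i + 1) = 2 ^ i + 2 ^ i := by ring
  have hfi : f i - f (i + 1) = (D1 G Ω (2 ^ i) : ℝ) / n ^ (2 ^ i + 2 ^ i + 2) := by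
    show (A G Ω (2 ^ i) : ℝ) / n ^ (2 ^ i + 2) - (A G Ω (2 ^ (i + 1)) : ℝ) / n ^ (2 ^ (i + 1) + 2)
      = _
    rw [hpow]
    have e1 : (A G Ω (2 ^ i) : ℝ) / n ^ (2 ^ i + 2)
        = (n ^ (2 ^ i) * A G Ω (2 ^ i)) / n ^ (2 ^ i + 2 ^ i + 2) := by
      rw [show 2 ^ i + 2 ^ i + 2 = 2 ^ i + (2 ^ i + 2) by ring, pow_add n (2 ^ i) (2 ^ i + 2)]
      rw [mul_div_mul_left _ _ (by positivity)]
    rw [e1, ← hD]
    ring
  rw [hfi, div_le_div_iff₀ (by positivity) hIp] at hle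
  have : ((D1 G Ω (2 ^ i) * I : ℕ) : ℝ) ≤
      ((m * (Fintype.card Ω) ^ (2 ^ i + 2 ^ i + 2) : ℕ) : ℝ) := by
    push_cast
    rw [← hn]
    exact hle
  exact_mod_cast this

end Pool.Agent.K7.H14.SR
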