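import Pool.Agent.K7.H14.SR.BL2

set_option autoImplicit false

namespace Pool.Agent.K7.H14.SR

open Finset MulAction
open scoped Classical

variable {G : Type} {Ω : Type} [Group G] [MulAction G Ω] [Fintype G] [Fintype Ω]

theorem small [IsPreprimitive G Ω] [FaithfulSMul G Ω] (a : Ω) {h : ℕ}
    (hh : ∀ b : Ω, (PF G {b}).card ≤ h)
    (hfix : ∀ b : Ω, ∃ g : G, g ≠ 1 ∧ g • a = a ∧ g • b = b) :
    Fintype.card Ω ≤ (h ^ 2) ^ (h ^ 2) := by
  let Fx : G → Finset Ω := fun g => univ.filter (fun w => g • w = w)
  -- an element with many fixed points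
  obtain ⟨g, hg1, hga, hgF⟩ : ∃ g : G, g ≠ 1 ∧ g • a = a ∧
      Fintype.card Ω ≤ h * (Fx g).card := by
    by_contra hcon
    push Not at hcon
    let H : Finset G := (PF G {a}).filter (fun g => g ≠ 1)
    have hH : ∀ g ∈ H, h * (Fx g).card < Fintype.card Ω := by
      intro g hg
      rw [mem_filter, mem_PF] at hg
      exact hcon g hg.2 (hg.1 a (mem_singleton_self a))
    have hHne : H.Nonempty := by
      obtain ⟨g, h1, h2, _⟩ := hfix a
      refine ⟨g, ?_⟩
      rw [mem_filter, mem_PF]
      exact ⟨fun b hb => by rw [mem_singleton] at hb; subst hb; exact h2, h1⟩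
    have hcov : (univ : Finset Ω) ⊆ H.biUnion Fx := by
      intro b _
      obtain ⟨g, h1, h2, h3⟩ := hfix b
      rw [mem_biUnion]
      refine ⟨g, ?_, ?_⟩
      · rw [mem_filter, mem_PF]
        exact ⟨fun b hb => by rw [mem_singleton] at hb; subst hb; exact h2, h1⟩
      · rw [mem_filter]
        exact ⟨mem_univ _, h3⟩
    have h1 : Fintype.card Ω ≤ ∑ g ∈ H, (Fx g).card := (card_le_card hcov).trans card_biUnion_le
    have h2 : ∑ g ∈ H, h * (Fx g).card < ∑ g ∈ H, Fintype.card Ω :=
      sum_lt_sum_of_nonempty hHne hH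
    rw [← mul_sum, sum_const, smul_eq_mul] at h2
    have h3 : H.card ≤ h := (card_le_card (filter_subset _ _)).trans (hh a)
    have h4 : H.card * Fintype.card Ω ≤ h * Fintype.card Ω := Nat.mul_le_mul_right _ h3
    have h5 : h * Fintype.card Ω ≤ h * ∑ g ∈ H, (Fx g).card := Nat.mul_le_mul_left _ h1
    omega
  -- its conjugacy class
  let K : Finset G := univ.image (fun x : G => x * g * x⁻¹)
  have hKmem : ∀ u, u ∈ K ↔ ∃ x : G, x * g * x⁻¹ = u := by
    intro u
    simp [K]
  have hKconj : ∀ u ∈ K, ∀ x : G, x * u * x⁻¹ ∈ K := by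
    intro u hu x
    rw [hKmem] at hu ⊢
    obtain ⟨y, rfl⟩ := hu
    exact ⟨x * y, by group⟩
  have hKfix : ∀ u ∈ K, (Fx u).card = (Fx g).card := by
    intro u hu
    rw [hKmem] at hu
    obtain ⟨x, rfl⟩ := hu
    have : Fx (x * g * x⁻¹) = (Fx g).image (fun w => x • w) := by
      ext w
      simp only [Fx, mem_filter, mem_univ, true_and, mem_image]
      constructor
      · intro hw
        refine ⟨x⁻¹ • w, ?_, by simp⟩
        rw [mul_smul, mul_smul] at hw
        rw [← eq_inv_smul_iff] at hw
        exact hw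
      · rintro ⟨v, hv, rfl⟩
        rw [mul_smul, mul_smul, inv_smul_smul, hv]
    rw [this, card_image_of_injective _ (MulAction.injective x)]
  have haF : a ∈ Fx g := by
    simp only [Fx, mem_filter, mem_univ, true_and]
    exact hga
  have hF0 : 0 < (Fx g).card := card_pos.2 ⟨a, haF⟩
  have hK : K.card ≤ h ^ 2 := by
    have h1 : K.card * (Fx g).card ≤ Fintype.card Ω * h := by
      calc K.card * (Fx g).card = ∑ u ∈ K, (Fx u).card := by
            rw [sum_congr rfl hKfix, sum_const, smul_eq_mul]
        _ = ∑ u ∈ K, ∑ w : Ω, (if u • w = w then 1 else 0) := by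
            apply sum_congr rfl
            intro u _
            rw [← card_filter]
        _ = ∑ w : Ω, ∑ u ∈ K, (if u • w = w then 1 else 0) := sum_comm
        _ ≤ ∑ w : Ω, h := by
            apply sum_le_sum
            intro w _
            rw [← card_filter]
            refine le_trans (card_le_card ?_) (hh w)
            intro u hu
            rw [mem_filter] at hu
            rw [mem_PF]
            intro c hc
            rw [mem_singleton] at hc
            subst hc
            exact hu.2
        _ = Fintype.card Ω * h := by rw [sum_const, smul_eq_mul, card_univ]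
    have h2 : K.card * (Fx g).card ≤ h ^ 2 * (Fx g).card := by
      calc K.card * (Fx g).card ≤ Fintype.card Ω * h := h1
        _ ≤ h * (Fx g).card * h := Nat.mul_le_mul_right _ hgF
        _ = _ := by ring
    exact Nat.le_of_mul_le_mul_right h2 hF0
  let Z : Subgroup G := Subgroup.centralizer (K : Set G)
  have hZ : ∀ z, z ∈ Z ↔ ∀ u ∈ K, u * z = z * u := by
    intro z
    simp only [Z, Subgroup.mem_centralizer_iff, mem_coe]
  have hnorm : Z.Normal := by
    constructor
    intro z hz n
    rw [hZ] at *
    intro u hu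
    have h1 := hKconj u hu n⁻¹
    rw [inv_inv] at h1
    have h2 := hz _ h1
    calc u * (n * z * n⁻¹) = n * ((n⁻¹ * u * n) * z) * n⁻¹ := by group
      _ = n * (z * (n⁻¹ * u * n)) * n⁻¹ := by rw [h2]
      _ = n * z * n⁻¹ * u := by group
  have hgK : g ∈ K := by
    rw [hKmem]
    exact ⟨1, by simp⟩
  have hZfix : fixedPoints Z Ω = Set.univ := by
    by_contra hne
    have htr : IsPretransitive Z Ω := IsQuasiPreprimitive.isPretransitive_of_normal (G := G) hne
    apply hg1
    apply FaithfulSMul.eq_of_smul_eq_smul (α := Ω)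
    intro w
    obtain ⟨z, hz⟩ := MulAction.exists_smul_eq Z a w
    have hzz : (z : G) • a = w := hz
    have hc := (hZ z).1 z.2 g hgK
    rw [← hzz, ← mul_smul, hc, mul_smul, hga, one_smul]
  have hZ1 : ∀ z ∈ Z, z = 1 := by
    intro z hz
    apply FaithfulSMul.eq_of_smul_eq_smul (α := Ω)
    intro w
    have hw : w ∈ fixedPoints Z Ω := by rw [hZfix]; trivial
    rw [mem_fixedPoints] at hw
    rw [one_smul]
    exact hw ⟨z, hz⟩
  have hG : Fintype.card G ≤ K.card ^ K.card := by
    have hinj : Function.Injective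
        (fun x : G => (fun u : K => (⟨x * u * x⁻¹, hKconj u u.2 x⟩ : K))) := by
      intro x y hxy
      have h1 : y⁻¹ * x = 1 := by
        apply hZ1
        rw [hZ]
        intro u hu
        have h2 := congrArg Subtype.val (congrFun hxy ⟨u, hu⟩)
        simp only at h2
        calc u * (y⁻¹ * x) = y⁻¹ * (y * u * y⁻¹) * x := by group
          _ = y⁻¹ * (x * u * x⁻¹) * x := by rw [h2]
          _ = y⁻¹ * x * u := by group
      rw [inv_mul_eq_one] at h1
      exact h1.symm
    have := Fintype.card_le_of_injective _ hinj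
    rw [Fintype.card_fun, Fintype.card_coe] at this
    exact this
  have hΩ : Fintype.card Ω ≤ Fintype.card G := by
    apply Fintype.card_le_of_surjective (fun x : G => x • a)
    intro w
    exact MulAction.exists_smul_eq G a w
  have hK0 : 0 < K.card := card_pos.2 ⟨g, hgK⟩
  calc Fintype.card Ω ≤ Fintype.card G := hΩ
    _ ≤ K.card ^ K.card := hG
    _ ≤ (h ^ 2) ^ K.card := Nat.pow_le_pow_left hK _
    _ ≤ (h ^ 2) ^ (h ^ 2) := Nat.pow_le_pow_right (by omega) hK

end Pool.Agent.K7.H14.SR
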